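import Mathlib
import Pool.Agent.H.MP_e40715_an.A

set_option autoImplicit false

namespace Pool.Agent.Results.MP_e40715_an.Yes

open MeasureTheory Set Pool.Agent.H.MP_e40715_an
open scoped ENNReal

/-- Lebesgue measure on the unit interval -/
noncomputable def m : Measure ℝ := volume.restrict (Icc 0 1)

/-- hypercyclic operators -/
def Hyp {X : Type*} [NormedAddCommGroup X] [NormedSpace ℂ X] (T : X →L[ℂ] X) : Prop :=
  ∃ f, Dense (range fun n : ℕ => (T ^ n) f)

/-- the weighted translation operator exists on a function space and is not hypercyclic -/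
def NotHyp (Y : Type) [NormedAddCommGroup Y] [NormedSpace ℂ Y] (v : Y → ℝ → ℂ) (φ : ℝ → ℂ)
    (α : ℝ) : Prop :=
  ∃ T : Y →L[ℂ] Y, (∀ f, ∀ᵐ x ∂m, v (T f) x = φ x * v f (Int.fract (x + α))) ∧ ¬ Hyp T

theorem result : ∀ (p : ℝ≥0∞) [Fact (1 ≤ p)] (φ : ℝ → ℂ) (α : ℝ), MemLp φ ⊤ m →
    NotHyp (Lp ℂ p m) (fun f => f) φ α := by
  intro p _ φ α h
  have : IsProbabilityMeasure m := ⟨by simp [m]⟩
  have hR : MeasurePreserving (fun x => Int.fract (x + α)) m m := mp α
  let T : Lp ℂ p m →L[ℂ] Lp ℂ p m := (ContinuousLinearMap.mul ℂ ℂ).holderL m ⊤ p p (h.toLp φ) ∘L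
    (Lp.compMeasurePreservingₗᵢ ℂ _ hR).toContinuousLinearMap
  have e : ∀ f, T f =ᵐ[m] fun x => φ x * f (Int.fract (x + α)) := fun f => by
    filter_upwards [(ContinuousLinearMap.mul ℂ ℂ).coeFn_holder (r := p) (h.toLp φ)
      (Lp.compMeasurePreserving _ hR f), h.coeFn_toLp, Lp.coeFn_compMeasurePreserving f hR]
      with x h1 h2 h3
    rw [h2, h3] at h1
    exact h1
  exact ⟨T, e, fun ⟨f, hf⟩ => main hR e f hf⟩

end Pool.Agent.Results.MP_e40715_an.Yes
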